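import Mathlib

/-!
# Limits of sequences of functions which converge exponentially fast and have second derivatives of
polynomial growth are continuously differentiable (Landau's inequality)
-/

set_option autoImplicit false

open Filter Topology Metric

namespace Pool.Agent.Helper94.TN

theorem landau {g g1 g2 : ℝ → ℂ} (h1 : ∀ b, HasDerivAt g (g1 b) b)
    (h2 : ∀ b, HasDerivAt g1 (g2 b) b) {M : ℝ} (hM : ∀ b, ‖g2 b‖ ≤ M) (b : ℝ) {h : ℝ}
    (hh : 0 < h) : ‖g1 b‖ ≤ (‖g b‖ + ‖g (b + h)‖) / h + M * h := by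
  have hM0 : 0 ≤ M := (norm_nonneg _).trans (hM 0)
  have hlip : ∀ t, ‖g1 t - g1 b‖ ≤ M * ‖t - b‖ := fun t =>
    Convex.norm_image_sub_le_of_norm_hasDerivWithin_le (s := Set.univ)
      (fun x _ => (h2 x).hasDerivWithinAt) (fun x _ => hM x) convex_univ (Set.mem_univ b)
      (Set.mem_univ t)
  set φ : ℝ → ℂ := fun t => g t - (t - b) • g1 b with hφ
  have hφ' : ∀ t, HasDerivAt φ (g1 t - g1 b) t := by
    intro t
    have h3 : HasDerivAt (fun t : ℝ => (t - b) • g1 b) ((1 : ℝ) • g1 b) t :=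
      ((hasDerivAt_id t).sub_const b).smul_const (g1 b)
    rw [one_smul] at h3
    exact (h1 t).sub h3
  have hb := norm_image_sub_le_of_norm_deriv_le_segment' (a := b) (b := b + h) (f := φ)
    (f' := fun t => g1 t - g1 b) (C := M * h) (fun x _ => (hφ' x).hasDerivWithinAt)
    (fun x hx => by
      refine (hlip x).trans (mul_le_mul_of_nonneg_left ?_ hM0)
      rw [Real.norm_eq_abs, abs_of_nonneg (by linarith [hx.1])]
      linarith [hx.2]) (b + h) ⟨by linarith, le_rfl⟩
  have he : φ (b + h) - φ b = g (b + h) - g b - h • g1 b := by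
    simp only [hφ, add_sub_cancel_left, sub_self, zero_smul, sub_zero]
    ring
  rw [he, add_sub_cancel_left] at hb
  have h4 : h * ‖g1 b‖ ≤ ‖g b‖ + ‖g (b + h)‖ + M * h * h := by
    have h5 : ‖h • g1 b‖ = h * ‖g1 b‖ := by rw [norm_smul, Real.norm_eq_abs, abs_of_pos hh]
    have h6 : h • g1 b = (g (b + h) - g b) - (g (b + h) - g b - h • g1 b) := by ring
    rw [← h5, h6]
    have h7 := norm_sub_le (g (b + h) - g b) (g (b + h) - g b - h • g1 b)
    have h8 := norm_sub_le (g (b + h)) (g b)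
    linarith
  have h5 : ‖g1 b‖ ≤ (‖g b‖ + ‖g (b + h)‖ + M * h * h) / h := by
    rw [le_div_iff₀ hh]
    linarith
  refine h5.trans (le_of_eq ?_)
  field_simp

theorem sum_u {c : ℝ} (hc : 0 < c) (q : ℕ) :
    Summable fun n : ℕ => ((n : ℝ) + 1) ^ q * Real.exp (-(c * n)) := by
  have h1 := Real.summable_pow_mul_exp_neg_nat_mul q hc
  have h2 := ((summable_nat_add_iff 1).2 h1).mul_left (Real.exp c)
  refine h2.congr fun n => ?_
  push_cast
  have h3 : Real.exp c * Real.exp (-c * ((n : ℝ) + 1)) = Real.exp (-(c * n)) := by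
    rw [← Real.exp_add]
    congr 1
    ring
  calc _ = ((n : ℝ) + 1) ^ q * (Real.exp c * Real.exp (-c * ((n : ℝ) + 1))) := by ring
    _ = _ := by rw [h3]

theorem c1_of {s : ℕ → ℝ → ℂ} {E : ℝ → ℂ} {b0 δ K c : ℝ} (hδ : 0 < δ) (hK : 0 ≤ K) (hc : 0 < c)
    {q n0 : ℕ}
    (hconv : ∀ n, n0 ≤ n → ∀ b, |b - b0| < δ → ‖s n b - E b‖ ≤ K * Real.exp (-(c * n)))
    (hd : ∀ n, ∃ s1 s2 : ℝ → ℂ, (∀ b, HasDerivAt (s n) (s1 b) b) ∧
      (∀ b, HasDerivAt s1 (s2 b) b) ∧ ∀ b, ‖s2 b‖ ≤ K * (n + 1) ^ q) : ContDiffAt ℝ 1 E b0 := by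
  choose s1 s2 hs1 hs2 hb using hd
  set g : ℕ → ℝ → ℂ := fun n b => s (n0 + (n + 1)) b - s (n0 + n) b with hg
  set g1 : ℕ → ℝ → ℂ := fun n b => s1 (n0 + (n + 1)) b - s1 (n0 + n) b with hg1
  have hgd : ∀ n b, HasDerivAt (g n) (g1 n b) b := fun n b => (hs1 _ b).sub (hs1 _ b)
  have hg1d : ∀ n b, HasDerivAt (g1 n) (s2 (n0 + (n + 1)) b - s2 (n0 + n) b) b := fun n b =>
    (hs2 _ b).sub (hs2 _ b)
  -- the differences are small
  have hsm : ∀ n b, |b - b0| < δ → ‖g n b‖ ≤ 2 * K * Real.exp (-(c * n)) := by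
    intro n b hbb
    have e1 := hconv (n0 + (n + 1)) (by omega) b hbb
    have e2 := hconv (n0 + n) (by omega) b hbb
    have e3 : Real.exp (-(c * ((n0 + (n + 1) : ℕ) : ℝ))) ≤ Real.exp (-(c * n)) := by
      apply Real.exp_le_exp.2
      push_cast
      nlinarith [mul_nonneg hc.le (Nat.cast_nonneg (α := ℝ) n0)]
    have e4 : Real.exp (-(c * ((n0 + n : ℕ) : ℝ))) ≤ Real.exp (-(c * n)) := by
      apply Real.exp_le_exp.2
      push_cast
      nlinarith [mul_nonneg hc.le (Nat.cast_nonneg (α := ℝ) n0)]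
    have e5 : g n b = (s (n0 + (n + 1)) b - E b) - (s (n0 + n) b - E b) := by
      simp only [hg]
      ring
    rw [e5]
    have e6 := norm_sub_le (s (n0 + (n + 1)) b - E b) (s (n0 + n) b - E b)
    have e7 := mul_le_mul_of_nonneg_left e3 hK
    have e8 := mul_le_mul_of_nonneg_left e4 hK
    linarith
  -- second derivatives
  have hse : ∀ n b, ‖s2 (n0 + (n + 1)) b - s2 (n0 + n) b‖ ≤
      2 * K * (n0 + 2) ^ q * ((n : ℝ) + 1) ^ q := by
    intro n b
    have e1 := hb (n0 + (n + 1)) b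
    have e2 := hb (n0 + n) b
    have e6 := norm_sub_le (s2 (n0 + (n + 1)) b) (s2 (n0 + n) b)
    have hn0 : (0 : ℝ) ≤ n0 := Nat.cast_nonneg _
    have hn : (0 : ℝ) ≤ n := Nat.cast_nonneg _
    have e3 : (((n0 + (n + 1) : ℕ) : ℝ) + 1) ^ q ≤ ((n0 + 2) * ((n : ℝ) + 1)) ^ q := by
      apply pow_le_pow_left₀ (by positivity)
      push_cast
      nlinarith
    have e4 : (((n0 + n : ℕ) : ℝ) + 1) ^ q ≤ ((n0 + 2) * ((n : ℝ) + 1)) ^ q := by
      apply pow_le_pow_left₀ (by positivity)
      push_cast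
      nlinarith
    rw [mul_pow] at e3 e4
    have e7 := mul_le_mul_of_nonneg_left e3 hK
    have e8 := mul_le_mul_of_nonneg_left e4 hK
    linarith
  set u : ℕ → ℝ := fun n => (8 * K / δ) * (((n : ℝ) + 1) ^ 0 * Real.exp (-(c / 2 * n))) +
    (K * δ * (n0 + 2) ^ q) * (((n : ℝ) + 1) ^ q * Real.exp (-(c / 2 * n))) with hu
  have husum : Summable u :=
    ((sum_u (half_pos hc) 0).mul_left _).add ((sum_u (half_pos hc) q).mul_left _)
  have hbound : ∀ n b, b ∈ ball b0 (δ / 2) → ‖g1 n b‖ ≤ u n := by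
    intro n b hbb
    rw [mem_ball, Real.dist_eq] at hbb
    have hx : 0 < Real.exp (-(c / 2 * n)) := Real.exp_pos _
    have hx1 : Real.exp (-(c / 2 * n)) ≤ 1 := by
      apply Real.exp_le_one_iff.2
      have : 0 ≤ c / 2 * n := by positivity
      linarith
    have hh : 0 < δ / 2 * Real.exp (-(c / 2 * n)) := by positivity
    have e0 := landau (hgd n) (hg1d n) (hse n) b hh
    have e1 := hsm n b (by linarith)
    have e2 := hsm n (b + δ / 2 * Real.exp (-(c / 2 * n))) (by
      rw [abs_lt] at hbb ⊢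
      constructor <;> nlinarith [hbb.1, hbb.2])
    have e3 : Real.exp (-(c * n)) = Real.exp (-(c / 2 * n)) * Real.exp (-(c / 2 * n)) := by
      rw [← Real.exp_add]
      congr 1
      ring
    have e4 : (‖g n b‖ + ‖g n (b + δ / 2 * Real.exp (-(c / 2 * n)))‖) /
        (δ / 2 * Real.exp (-(c / 2 * n))) ≤ (8 * K / δ) * Real.exp (-(c / 2 * n)) := by
      rw [div_le_iff₀ hh]
      have e5 : 8 * K / δ * Real.exp (-(c / 2 * n)) * (δ / 2 * Real.exp (-(c / 2 * n))) =
          4 * K * Real.exp (-(c * n)) := by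
        rw [e3]
        field_simp
        ring
      rw [e5]
      linarith
    have e6 : 2 * K * (n0 + 2) ^ q * ((n : ℝ) + 1) ^ q * (δ / 2 * Real.exp (-(c / 2 * n))) =
        (K * δ * (n0 + 2) ^ q) * (((n : ℝ) + 1) ^ q * Real.exp (-(c / 2 * n))) := by ring
    rw [e6] at e0
    simp only [hu, pow_zero, one_mul]
    linarith
  have hconvx : ∀ y, y ∈ ball b0 (δ / 2) → HasSum (fun n => g n y) (E y - s n0 y) := by
    intro y hy
    rw [mem_ball, Real.dist_eq] at hy
    have hy' : |y - b0| < δ := by linarith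
    have hsu : Summable fun n => g n y := by
      refine Summable.of_norm_bounded
        (g := fun n : ℕ => 2 * K * (((n : ℝ) + 1) ^ 0 * Real.exp (-(c * n))))
        ((sum_u hc 0).mul_left _) fun n => ?_
      rw [pow_zero, one_mul]
      exact hsm n y hy'
    have ht : Tendsto (fun N => ∑ n ∈ Finset.range N, g n y) atTop (𝓝 (E y - s n0 y)) := by
      have h1 : ∀ N, ∑ n ∈ Finset.range N, g n y = s (n0 + N) y - s n0 y := by
        intro N
        have := Finset.sum_range_sub (fun n => s (n0 + n) y) N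
        simpa [hg] using this
      simp only [h1]
      refine Tendsto.sub_const ?_ _
      rw [tendsto_iff_norm_sub_tendsto_zero]
      have h2 : Tendsto (fun n : ℕ => K * Real.exp (-(c * n))) atTop (𝓝 0) := by
        have := ((sum_u hc 0).mul_left K).tendsto_atTop_zero
        simpa using this
      refine squeeze_zero (fun n => norm_nonneg _) (fun n => ?_) h2
      refine (hconv (n0 + n) (by omega) y hy').trans (mul_le_mul_of_nonneg_left ?_ hK)
      apply Real.exp_le_exp.2
      push_cast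
      nlinarith [mul_nonneg hc.le (Nat.cast_nonneg (α := ℝ) n0)]
    have := tendsto_nhds_unique hsu.hasSum.tendsto_sum_nat ht
    rw [← this]
    exact hsu.hasSum
  have hball : b0 ∈ ball b0 (δ / 2) := mem_ball_self (half_pos hδ)
  have hder : ∀ y, y ∈ ball b0 (δ / 2) → HasDerivAt E (s1 n0 y + ∑' n, g1 n y) y := by
    intro y hy
    have h1 := hasDerivAt_tsum_of_isPreconnected husum isOpen_ball (convex_ball b0 (δ / 2)).isPreconnected
      (fun n y _ => hgd n y) (fun n y hy => hbound n y hy) hball (hconvx b0 hball).summable hy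
    have h2 := (hs1 n0 y).add h1
    refine h2.congr_of_eventuallyEq ?_
    filter_upwards [isOpen_ball.mem_nhds hy] with z hz
    simp only [Pi.add_apply, (hconvx z hz).tsum_eq]
    ring
  have hcont : ContinuousOn (fun y => s1 n0 y + ∑' n, g1 n y) (ball b0 (δ / 2)) := by
    refine ContinuousOn.add (fun y _ => (hs2 n0 y).continuousAt.continuousWithinAt) ?_
    exact continuousOn_tsum (fun n y _ => (hg1d n y).continuousAt.continuousWithinAt) husum
      (fun n y hy => hbound n y hy)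
  have hC : ContDiffOn ℝ 1 E (ball b0 (δ / 2)) := by
    have h01 : (1 : WithTop ℕ∞) = 0 + 1 := by norm_num
    rw [h01, contDiffOn_succ_iff_deriv_of_isOpen isOpen_ball]
    refine ⟨fun y hy => (hder y hy).differentiableAt.differentiableWithinAt, by simp, ?_⟩
    rw [contDiffOn_zero]
    exact hcont.congr fun y hy => (hder y hy).deriv
  exact hC.contDiffAt (isOpen_ball.mem_nhds hball)

end Pool.Agent.Helper94.TN
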